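import Pool.Agent.Results.MP_a12702_lc.GenericQuantifiers
import Pool.Agent.R158.MM.Int

/-!
# Quasiminimality of the complex numbers with the quantifiers of Magidor and Malitz

The starting result `GenericQuantifiers` shows that all sets of complex numbers which are obtained
from zero sets of entire functions by countable Boolean combinations, preimages under entire maps,
the guarded quantifiers of the starting results `FiniteOrderGuards` and `OneEquationQuantifiers`, and
the unguarded quantifiers 'for at least `κ` numbers `x`' (`κ` uncountable) and 'the `μ`-measure of the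
set of all numbers `x` is larger than `r`' are countable or cocountable. So it covers the logic
`L_{ω₁, ω}(Q)` in one variable at a time.

Here we add the QUANTIFIERS OF MAGIDOR AND MALITZ: there is a set `H` of at least `κ` complex numbers
(`κ` uncountable) all of whose tuples of distinct elements satisfy given conditions. More generally
there can be a sequence of sets `H₀, H₁, …` and conditions on the tuples of distinct numbers whose
entries are in prescribed sets of the sequence. The conditions are arbitrary sets of the family, for
all numbers of variables simultaneously. (For one condition in one variable this is the quantifier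
'for at least `κ` numbers'.) We also add
INTEGRALS: if a measurable function `φ(s, y)` with values in `[0, ∞]` has for every fixed `y` all its
superlevel sets in the family, then all the superlevel sets of `∫ φ(s, y) dμ(y)` are in the family, for
every s-finite measure `μ` on an arbitrary measurable space. This contains the measure quantifiers
over arbitrarily many unknowns.

The proof eliminates the quantifiers of Magidor and Malitz. For Borel sets with countable or
cocountable traces on analytic curves, there are homogeneous sets of uncountable cardinality at least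
`κ` (at most the continuum) if and only if, for every condition and every ordering of its variables,
the iterated quantifier 'for uncountably many' holds (`Pool.Agent.R158.MM.homogeneous_iff`,
`Pool.Agent.R158.MM.mm_iff`). The third part of the theorem is a consequence: if there are uncountable
homogeneous sets, then there is one of the cardinality of the continuum, without the continuum
hypothesis. For integrals one compares two
atomless measures on an analytic curve by the theorem of Tonelli
(`Pool.Agent.R158.MM.BC.integral`).
-/

set_option autoImplicit false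

namespace Pool.Agent.Results.MP_a12702_lc.MagidorMalitz

open Set Function Cardinal MeasureTheory Pool.Agent.TH735.QM
open scoped ENNReal

/-- Closure conditions on families `𝒟 m` of subsets of `ℂ^m`: those of the starting result
`GenericQuantifiers` and two further ones. -/
structure ClosedMM (𝒟 : (m : ℕ) → Set (Set (Fin m → ℂ))) : Prop extends
    GenericQuantifiers.Closed 𝒟 where
  /-- the quantifiers of Magidor and Malitz: there are sets `H n` (`n = 0, 1, …`) of at least `κ n`
  complex numbers (`κ n` uncountable) such that `X k c (s, x₁, …, x_k)` holds for all `k`, all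
  sequences `c` of `k` indices, and all distinct numbers `x₁, …, x_k` with `x_i ∈ H (c i)`; the sets
  `X k c` of the family are arbitrary -/
  homogeneous : ∀ (m : ℕ) (X : (k : ℕ) → (Fin k → ℕ) → Set (Fin (m + k) → ℂ)),
    (∀ k c, X k c ∈ 𝒟 (m + k)) → ∀ κ : ℕ → Cardinal.{0}, (∀ n, ℵ₀ < κ n) →
    {s | ∃ H : ℕ → Set ℂ, (∀ n, κ n ≤ #(H n)) ∧
      ∀ (k : ℕ) (c : Fin k → ℕ) (x : Fin k → ℂ), Injective x → (∀ i, x i ∈ H (c i)) →
        (Fin.append s x : Fin (m + k) → ℂ) ∈ X k c} ∈ 𝒟 m
  /-- integrals over parameters: the superlevel sets of `s ↦ ∫ φ(s, y) dμ(y)`, where `μ` is an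
  s-finite measure on an arbitrary measurable space, `φ` is jointly measurable, and all superlevel
  sets of `φ(·, y)` are in the family, for every `y` -/
  integral : ∀ (m : ℕ) (Y : Type) [MeasurableSpace Y] (μ : Measure Y) [SFinite μ]
    (φ : (Fin m → ℂ) → Y → ℝ≥0∞), Measurable (fun p : (Fin m → ℂ) × Y => φ p.1 p.2) →
    (∀ (y : Y) (r : ℝ≥0∞), {s | r < φ s y} ∈ 𝒟 m) →
    ∀ r : ℝ≥0∞, {s | r < ∫⁻ y, φ s y ∂μ} ∈ 𝒟 m

theorem closed_BC : ClosedMM (fun m => {X | CQ m X ∧ MeasurableSet X}) :=
  { GenericQuantifiers.closed_CQ with
    homogeneous := fun _ _ hX _ hκ => Pool.Agent.R158.MM.BC.mm (fun k c => hX k c) hκ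
    integral := fun _ _ _ μ _ φ hφ h r =>
      Pool.Agent.R158.MM.BC.integral μ φ hφ (fun y q => (h y q).1) r }

/-- (1) The sets in the least closed family are Borel sets with countable or cocountable traces on
all analytic curves; (2) every set of complex numbers in the least closed family is countable or
cocountable; (3) if there are uncountable sets which are homogeneous for conditions from the least
closed family, with parameters `s`, then there is one homogeneous set, of the cardinality of the
continuum. -/
theorem result :
    (∀ (m : ℕ) (X : Set (Fin m → ℂ)),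
      (∀ 𝒟 : (m : ℕ) → Set (Set (Fin m → ℂ)), ClosedMM 𝒟 → X ∈ 𝒟 m) →
      MeasurableSet X ∧ ∀ U : Set ℂ, IsOpen U → IsPreconnected U →
        ∀ γ : ℂ → (Fin m → ℂ), AnalyticOnNhd ℂ γ U →
          {t | t ∈ U ∧ γ t ∈ X}.Countable ∨ {t | t ∈ U ∧ γ t ∉ X}.Countable) ∧
    (∀ X : Set ℂ,
      (∀ 𝒟 : (m : ℕ) → Set (Set (Fin m → ℂ)), ClosedMM 𝒟 → {v : Fin 1 → ℂ | v 0 ∈ X} ∈ 𝒟 1) →
      X.Countable ∨ Xᶜ.Countable) ∧
    ∀ (m : ℕ) (X : (k : ℕ) → (Fin k → ℕ) → Set (Fin (m + k) → ℂ)),
      (∀ k c, ∀ 𝒟 : (m : ℕ) → Set (Set (Fin m → ℂ)), ClosedMM 𝒟 → X k c ∈ 𝒟 (m + k)) →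
      ∀ (s : Fin m → ℂ) (H : ℕ → Set ℂ), (∀ n, ¬ (H n).Countable) →
        (∀ (k : ℕ) (c : Fin k → ℕ) (x : Fin k → ℂ), Injective x →
          (∀ i, x i ∈ H (c i)) → (Fin.append s x : Fin (m + k) → ℂ) ∈ X k c) →
        ∃ H' : Set ℂ, #H' = 𝔠 ∧ ∀ (k : ℕ) (c : Fin k → ℕ) (x : Fin k → ℂ), Injective x →
          (∀ i, x i ∈ H') → (Fin.append s x : Fin (m + k) → ℂ) ∈ X k c := by
  refine ⟨?_, ?_, ?_⟩
  · intro m X hX
    have h1 : CQ m X ∧ MeasurableSet X := hX _ closed_BC
    exact ⟨h1.2, h1.1⟩
  · intro X hX
    have h1 : CQ 1 {v : Fin 1 → ℂ | v 0 ∈ X} ∧ MeasurableSet {v : Fin 1 → ℂ | v 0 ∈ X} :=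
      hX _ closed_BC
    exact h1.1.qm
  · intro m X hX s H hH h
    exact Pool.Agent.R158.MM.mm_one (fun k c => hX k c _ closed_BC) s hH h

end Pool.Agent.Results.MP_a12702_lc.MagidorMalitz
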