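import Pool.Agent.R579.CT.Curve
import Pool.Agent.R579.CT.Int

/-!
# Quasiminimality with systems over curves and random quantifiers inside the formulas

Zilber's quasiminimality conjecture predicts that every subset of `ℂ` which is definable (or just
invariant) in `(ℂ, +, ·, exp)` with finitely many parameters is countable or cocountable.

The starting result `GenericQuantifiers` treats a family of sets which is closed under Boolean
combinations, preimages under entire maps, quantifiers guarded by equations of finite order, and the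
unguarded quantifiers `for uncountably many x` and `μ {x | X(s, x)} > r`. The starting result
`CurveTypeDichotomy` is a dichotomy for one parameter `s ∈ ℂ` and one existential quantifier over the
solutions of a system of `n + 2` equations in `n + 2` unknowns over a plane curve; these solution
sets are not hypersurfaces.

Here the systems over curves are atoms of the formulas, so that they can be negated, combined,
substituted into and quantified by all the other rules. There may be any number of parameters, and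
the curve in the torus may move with them by a translation: the equations are
`exp x_i = c_i(s) R_i(z, v)` with arbitrary entire functions `c_i`, which may have zeros.
Moreover the measure quantifier is replaced by quantifiers over an arbitrary measurable space `Y`
of random parameters (for example tuples of numbers with any joint law, or random entire
functions), where the matrix has to belong to the family only for fixed `y ∈ Y`.

Proof. For the systems, up to constant factors only countably many polynomials `P(x; z, v)` lead to an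
unsolvable system (project EC of the starting files). If the polynomials of an analytic family on a
connected open set `U` are proportional to one of them for uncountably many `t ∈ U`, then for all
`t ∈ U`. So the set of good parameters is countable or cocountable in `U`. For moving translates this
is applied in small discs, where the `c_i` have logarithms `h_i`, to the polynomials `P(x + h(t))`,
and the result is glued. The projection is sigma-compact, hence a Borel set. For the random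
quantifier, if the inequality and its negation both had uncountably many solutions `t` on an analytic
curve, then there would be atomless measures `ν₁`, `ν₀` on the two sets of solutions. For fixed `y` the
trace of `X(·, y)` is countable or cocountable, so it has the same relative measure for `ν₁` and `ν₀`,
and by Tonelli's theorem the means of `μ {y | X(γ(t), y)}` for `ν₁` and `ν₀` would be equal.
-/

set_option autoImplicit false

namespace Pool.Agent.Results.MP_a12702_lc.SystemsOverCurves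

open Set Cardinal MeasureTheory Polynomial Pool.Agent.TH735.QM Pool.Agent.TH735.FO
open scoped ENNReal

/-- Closure conditions on families `𝒟 m` of subsets of `ℂ^m`. -/
structure Closed (𝒟 : (m : ℕ) → Set (Set (Fin m → ℂ))) : Prop where
  /-- zero sets of arbitrary entire functions -/
  zero : ∀ (m : ℕ) (f : (Fin m → ℂ) → ℂ), AnalyticOnNhd ℂ f univ → {s | f s = 0} ∈ 𝒟 m
  /-- complements -/
  compl : ∀ (m : ℕ) (X : Set (Fin m → ℂ)), X ∈ 𝒟 m → Xᶜ ∈ 𝒟 m
  /-- countable unions -/
  iUnion : ∀ (m : ℕ) (X : ℕ → Set (Fin m → ℂ)), (∀ i, X i ∈ 𝒟 m) → (⋃ i, X i) ∈ 𝒟 m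
  /-- preimages under entire maps -/
  preimage : ∀ (m n : ℕ) (h : (Fin n → ℂ) → (Fin m → ℂ)), AnalyticOnNhd ℂ h univ →
    ∀ X ∈ 𝒟 m, h ⁻¹' X ∈ 𝒟 n
  /-- the guarded quantifier: there are at least `κ` numbers `x` such that ..., where the matrix is
  arbitrary at the zeros `x` of `F(s, ·)` (`F` entire, of finite order in `x` locally uniformly in
  `s`), and is a countable Boolean combination of conditions `s ∈ E` and `x ∈ D` at the other `x` -/
  guard : ∀ (m : ℕ) (F : (Fin m → ℂ) → ℂ → ℂ),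
    AnalyticOnNhd ℂ (fun p : (Fin m → ℂ) × ℂ => F p.1 p.2) univ → FiniteOrder F →
    ∀ X ∈ 𝒟 (m + 1), ∀ R : Set ((Fin m → ℂ) × (Fin 1 → ℂ)),
      Rect (· ∈ 𝒟 m) (· ∈ 𝒟 1) R → ∀ κ : Cardinal.{0},
    {s | κ ≤ #({x : ℂ | (IsZero F s x ∧
      (Fin.snoc (α := fun _ => ℂ) s x : Fin (m + 1) → ℂ) ∈ X) ∨
      (¬ IsZero F s x ∧ (s, fun _ => x) ∈ R)} : Set ℂ)} ∈ 𝒟 m
  /-- counting quantifiers over one unknown `z`: at the points algebraic over `s` the matrix is
  arbitrary, elsewhere it consists of one admissible equation and a countable Boolean combination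
  (different on the two sides of the equation) of conditions `s ∈ E` and `z ∈ D` -/
  count : ∀ (m d : ℕ) (a : Fin (d + 1) → (Fin m → ℂ) → ℂ),
    (∀ j, AnalyticOnNhd ℂ (a j) univ) → ∀ X ∈ 𝒟 (m + 1),
    ∀ F : (Fin m → ℂ) → (Fin 1 → ℂ) → ℂ, Adm m 1 F →
    ∀ R₁ R₀ : Set ((Fin m → ℂ) × (Fin 1 → ℂ)), Rect (· ∈ 𝒟 m) (· ∈ 𝒟 1) R₁ →
      Rect (· ∈ 𝒟 m) (· ∈ 𝒟 1) R₀ → ∀ κ : Cardinal.{0},
    {s | κ ≤ #({z : ℂ | (IsAlg a s z ∧
      (Fin.snoc (α := fun _ => ℂ) s z : Fin (m + 1) → ℂ) ∈ X) ∨
      (¬ IsAlg a s z ∧ ((F s (fun _ => z) = 0 ∧ (s, fun _ => z) ∈ R₁) ∨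
        (F s (fun _ => z) ≠ 0 ∧ (s, fun _ => z) ∈ R₀)))} : Set ℂ)} ∈ 𝒟 m
  /-- the same with an arbitrary Boolean combination of finitely many equations which are
  polynomial in `z` and in the exponential of one entire function `h(s, z)` -/
  system : ∀ (m d e n : ℕ) (a : Fin (d + 1) → (Fin m → ℂ) → ℂ),
    (∀ j, AnalyticOnNhd ℂ (a j) univ) → ∀ X ∈ 𝒟 (m + 1),
    ∀ c : Fin n → Fin (e + 1) → Fin (e + 1) → (Fin m → ℂ) → ℂ,
    (∀ j i k, AnalyticOnNhd ℂ (c j i k) univ) → ∀ h : (Fin m → ℂ) → ℂ → ℂ,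
    AnalyticOnNhd ℂ (fun p : (Fin m → ℂ) × ℂ => h p.1 p.2) univ →
    ∀ R : Set (Fin n) → Set ((Fin m → ℂ) × (Fin 1 → ℂ)),
      (∀ Z, Rect (· ∈ 𝒟 m) (· ∈ 𝒟 1) (R Z)) → ∀ κ : Cardinal.{0},
    {s | κ ≤ #({z : ℂ | (IsAlg a s z ∧
      (Fin.snoc (α := fun _ => ℂ) s z : Fin (m + 1) → ℂ) ∈ X) ∨
      (¬ IsAlg a s z ∧ (s, fun _ => z) ∈
        R {j | ∑ i, ∑ k, c j i k s * z ^ (i : ℕ) * Complex.exp (h s z) ^ (k : ℕ) = 0})} :
        Set ℂ)} ∈ 𝒟 m
  /-- one admissible equation in `n` unknowns -/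
  ex : ∀ (m n : ℕ) (F : (Fin m → ℂ) → (Fin n → ℂ) → ℂ), Adm m n F →
    ∀ N : (Fin n → ℂ) → ℂ, AnalyticOnNhd ℂ N univ → {s | ∃ x, N x ≠ 0 ∧ F s x = 0} ∈ 𝒟 m
  /-- the unguarded quantifier: there are at least `κ` numbers `x` with `X(s, x)`, for an
  uncountable cardinal `κ` and an arbitrary set `X` of the family -/
  generic : ∀ (m : ℕ), ∀ X ∈ 𝒟 (m + 1), ∀ κ : Cardinal.{0}, ℵ₀ < κ →
    {s | κ ≤ #({x : ℂ | (Fin.snoc (α := fun _ => ℂ) s x : Fin (m + 1) → ℂ) ∈ X} : Set ℂ)} ∈ 𝒟 m
  /-- random quantifiers: `y` runs through an arbitrary measurable space with an s-finite measure;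
  the matrix `X(s, y)` is jointly measurable, and a set of the family for every fixed `y` -/
  random : ∀ (m : ℕ) (Y : Type) [MeasurableSpace Y] (X : Set ((Fin m → ℂ) × Y)), MeasurableSet X →
    (∀ y, {s | (s, y) ∈ X} ∈ 𝒟 m) → ∀ (μ : Measure Y) [SFinite μ] (r : ℝ≥0∞),
    {s | r < μ {y | (s, y) ∈ X}} ∈ 𝒟 m
  /-- systems of `n + 2` equations in the `n + 2` unknowns `z, v, x_1, …, x_n` over an irreducible
  plane curve `F(z, v) = 0`: `exp x_i = c_i(s) (A_i / B_i)(z, v)` and
  `∑_k f_k(s) P_k(x; z, v) = 0` with entire coefficients `c_i`, `f_k` -/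
  curve : ∀ (m n K : ℕ) (F H : ℂ[X][X]) (A B : Fin n → ℂ[X][X]) (c : Fin n → (Fin m → ℂ) → ℂ)
    (f : Fin K → (Fin m → ℂ) → ℂ) (P : Fin K → MvPolynomial (Fin n) ℂ[X][X]),
    Irreducible F → 1 ≤ F.natDegree → ¬ F ∣ H → (∀ i, ¬ F ∣ A i) → (∀ i, ¬ F ∣ B i) →
    (∀ i, AnalyticOnNhd ℂ (c i) univ) → (∀ k, AnalyticOnNhd ℂ (f k) univ) →
    {s | ∃ (z v : ℂ) (x : Fin n → ℂ), F.evalEval z v = 0 ∧ H.evalEval z v ≠ 0 ∧
      (∀ i, (A i).evalEval z v ≠ 0 ∧ (B i).evalEval z v ≠ 0) ∧
      (∀ i, Complex.exp (x i) = c i s * ((A i).evalEval z v / (B i).evalEval z v)) ∧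
      ∑ k, f k s * MvPolynomial.eval x (MvPolynomial.map (evalEvalRingHom z v) (P k)) = 0} ∈ 𝒟 m

theorem closed_CQ : Closed (fun m => {X | CQ m X ∧ MeasurableSet X}) where
  zero := fun _ _ hf => ⟨CQ.zero hf,
    (isClosed_eq (continuousOn_univ.1 hf.continuousOn) continuous_const).measurableSet⟩
  compl := fun _ _ hX => ⟨CQ.compl hX.1, hX.2.compl⟩
  iUnion := fun _ _ hX => ⟨CQ.iUnion fun i => (hX i).1, MeasurableSet.iUnion fun i => (hX i).2⟩
  preimage := fun _ _ _ hh _ hX => ⟨CQ.preimage hX.1 hh,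
    (continuousOn_univ.1 hh.continuousOn).measurable hX.2⟩
  guard := by
    intro m F hF hord X hX R hR κ
    exact ⟨CQ.guard hF hord hX.1 (fun E hE => hE.1) (fun D hD => hD.1) hR κ,
      Pool.Agent.Y566.GQ.meas_guard hF hX.2 (fun E hE => hE.2) (fun D hD => hD) hR κ⟩
  count := by
    intro m d a ha X hX F hF R₁ R₀ hR₁ hR₀ κ
    exact ⟨CQ.count_one ha hX.1 hF (fun E hE => hE.1) (fun D hD => hD.1) hR₀ hR₁ κ,
      Pool.Agent.Y566.GQ.meas_count_one ha hX.2 hF (fun E hE => hE.2) (fun D hD => hD) hR₀ hR₁ κ⟩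
  system := by
    intro m d e n a ha X hX c hc h hh R hR κ
    exact ⟨CQ.count_system ha hX.1 hc hh (fun E hE => hE.1) (fun D hD => hD.1) hR κ,
      Pool.Agent.Y566.GQ.meas_system ha hX.2 hc hh (fun E hE => hE.2) (fun D hD => hD) hR κ⟩
  ex := fun _ _ _ hF _ hN => ⟨Pool.Agent.Y566.GQ.CQ_ex hF hN, Pool.Agent.Y566.GQ.meas_ex hF hN⟩
  generic := fun _ _ hX _ hκ => Pool.Agent.Y566.GQ.CQ_card hX.1 hX.2 hκ
  random := fun _ _ _ _ hXm hX μ _ r => ⟨Pool.Agent.R579.CT.CQ_int hXm (fun y => (hX y).1) μ r,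
    Pool.Agent.R579.CT.meas_int hXm μ r⟩
  curve := fun _ _ _ F H A B c f P h1 h2 h3 h4 h5 h6 h7 =>
    ⟨Pool.Agent.R579.CT.CQ_curve F H A B c f P h1 h2 h3 h4 h5 h6 h7,
      Pool.Agent.R579.CT.meas_curve F H A B c f P h6 h7⟩

/-- The sets in the least closed family are Borel sets with countable or cocountable traces on all
analytic curves; in particular every set of complex numbers in the least closed family is countable
or cocountable. -/
theorem result :
    (∀ (m : ℕ) (X : Set (Fin m → ℂ)),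
      (∀ 𝒟 : (m : ℕ) → Set (Set (Fin m → ℂ)), Closed 𝒟 → X ∈ 𝒟 m) →
      MeasurableSet X ∧ ∀ U : Set ℂ, IsOpen U → IsPreconnected U →
        ∀ γ : ℂ → (Fin m → ℂ), AnalyticOnNhd ℂ γ U →
          {t | t ∈ U ∧ γ t ∈ X}.Countable ∨ {t | t ∈ U ∧ γ t ∉ X}.Countable) ∧
    ∀ X : Set ℂ,
      (∀ 𝒟 : (m : ℕ) → Set (Set (Fin m → ℂ)), Closed 𝒟 → {v : Fin 1 → ℂ | v 0 ∈ X} ∈ 𝒟 1) →
      X.Countable ∨ Xᶜ.Countable := by
  refine ⟨?_, ?_⟩
  · intro m X hX
    have h1 : CQ m X ∧ MeasurableSet X := hX _ closed_CQ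
    exact ⟨h1.2, h1.1⟩
  · intro X hX
    have h1 : CQ 1 {v : Fin 1 → ℂ | v 0 ∈ X} ∧ MeasurableSet {v : Fin 1 → ℂ | v 0 ∈ X} :=
      hX _ closed_CQ
    exact h1.1.qm

end Pool.Agent.Results.MP_a12702_lc.SystemsOverCurves
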